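import Pool.Agent.Helper79.SA.Goals

open MeasureTheory Filter Topology Set TopologicalSpace

noncomputable section

namespace SA.PkSPL

abbrev W : Type := ℕ → Rl

theorem isOpen_eqB (n : ℕ) (s : Rl) : IsOpen {x : Rl | EqB n s x} := by
  have h1 : {x : Rl | EqB n s x} = ⋂ i ∈ Set.Iio n, {x : Rl | s i = x i} := by
    ext x
    simp only [EqB, mem_ofPred_eq, mem_iInter, mem_Iio]
  rw [h1]
  refine (Set.finite_Iio n).isOpen_biInter fun i _ => ?_
  exact (isOpen_discrete {b : Bool | s i = b}).preimage (continuous_apply i)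

theorem exists_eqB_subset {U : Set Rl} (hU : IsOpen U) {x : Rl} (hx : x ∈ U) :
    ∃ n, {y : Rl | EqB n x y} ⊆ U := by
  obtain ⟨I, u, hu, hs⟩ := isOpen_pi_iff.mp hU x hx
  refine ⟨I.sup id + 1, fun y hy => hs fun i hi => ?_⟩
  have h1 : i < I.sup id + 1 := Nat.lt_succ_of_le (Finset.le_sup (f := id) hi)
  rw [← hy i h1]
  exact (hu i hi).2

theorem continuous_dr (n : ℕ) : Continuous (dr n) :=
  continuous_pi fun i => continuous_apply (i + n)

theorem continuous_mp (g : Mp) : Continuous g.f := by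
  rw [continuous_iff_continuousAt]
  intro x U hU
  obtain ⟨V, hVU, hV, hxV⟩ := mem_nhds_iff.mp hU
  obtain ⟨n, hn⟩ := exists_eqB_subset hV hxV
  have h1 : {y : Rl | EqB n x y} ∈ 𝓝 x := (isOpen_eqB n x).mem_nhds fun i _ => rfl
  refine mem_map.mpr (mem_of_superset h1 fun y hy => ?_)
  exact hVU (hn (g.lip n x y hy))

theorem isOpenMap_cn (n : ℕ) (s : Rl) : IsOpenMap (cn n s).f := by
  intro U hU
  have h1 : (cn n s).f '' U = {x : Rl | EqB n s x} ∩ dr n ⁻¹' U := by
    ext x
    constructor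
    · rintro ⟨y, hy, rfl⟩
      refine ⟨fun i hi => by simp [cn, hi], ?_⟩
      have : dr n ((cn n s).f y) = y := by
        funext i
        simp [dr, cn]
      simpa [this] using hy
    · rintro ⟨h1, h2⟩
      refine ⟨dr n x, h2, ?_⟩
      funext i
      by_cases hi : i < n
      · simp only [cn, hi, if_true]; exact h1 i hi
      · simp only [cn, hi, if_false, dr]
        congr 1; omega
  rw [h1]
  exact (isOpen_eqB n s).inter (hU.preimage (continuous_dr n))

theorem continuous_ac (c : Cnd ℕ) : Continuous c.ac :=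
  continuous_pi fun ξ => (continuous_mp (c.m ξ)).comp (continuous_apply ξ)

theorem isOpenMap_box (F : Finset ℕ) (n : ℕ) (s : W) : IsOpenMap (box F n s).ac := by
  have h1 : (box F n s).ac = Pi.map fun ξ => ((box F n s).m ξ).f := by
    funext z ξ
    rfl
  rw [h1]
  refine IsOpenMap.piMap (fun ξ => ?_) ?_
  · by_cases h : ξ ∈ F
    · have : (box F n s).m ξ = cn n (s ξ) := by simp [box, h]
      rw [this]
      exact isOpenMap_cn n (s ξ)
    · have : (box F n s).m ξ = 1 := by simp [box, h]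
      rw [this]
      exact IsOpenMap.id
  · have h2 : ∀ᶠ ξ in cofinite, ξ ∉ F := F.finite_toSet.eventually_cofinite_notMem
    filter_upwards [h2] with ξ hξ
    have : (box F n s).m ξ = 1 := by simp [box, hξ]
    rw [this]
    exact Function.surjective_id

theorem exists_box {O : Set W} (hO : IsOpen O) {z : W} (hz : z ∈ O) :
    ∃ (F : Finset ℕ) (k : ℕ), {y : W | ∀ ξ ∈ F, EqB k (z ξ) (y ξ)} ⊆ O := by
  obtain ⟨I, u, hu, hs⟩ := isOpen_pi_iff.mp hO z hz
  have h1 : ∀ ξ : ℕ, ∃ n, ξ ∈ I → {y : Rl | EqB n (z ξ) y} ⊆ u ξ := by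
    intro ξ
    by_cases h : ξ ∈ I
    · obtain ⟨n, hn⟩ := exists_eqB_subset (hu ξ h).1 (hu ξ h).2
      exact ⟨n, fun _ => hn⟩
    · exact ⟨0, fun h' => absurd h' h⟩
  choose n hn using h1
  refine ⟨I, I.sup n, fun y hy => hs fun ξ hξ => hn ξ hξ ?_⟩
  intro i hi
  exact hy ξ hξ i (hi.trans_le (Finset.le_sup (f := n) hξ))

/-- The sections which contain residually all points of `O`. -/
def Q (O : Set W) (B : Set (Rl × W)) : Set Rl :=
  {u | ∀ᶠ y in residual W, y ∈ O → (u, y) ∈ B}

theorem not_residual_notMem {O : Set W} (hO : IsOpen O) (hne : O.Nonempty) :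
    ¬ ∀ᶠ y in residual W, y ∉ O := by
  intro h
  obtain ⟨y, hy, hyO⟩ := (dense_of_mem_residual h).inter_open_nonempty O hO hne
  exact hyO hy

theorem Q_iInter (O : Set W) (B : ℕ → Set (Rl × W)) : Q O (⋂ i, B i) = ⋂ i, Q O (B i) := by
  ext u
  simp only [Q, mem_ofPred_eq, mem_iInter]
  rw [← eventually_countable_forall]
  refine eventually_congr (Eventually.of_forall fun y => ?_)
  exact ⟨fun h i hy => h hy i, fun h hy i => h i hy⟩

theorem section_open {B : Set (Rl × W)} (hB : MeasurableSet B) (u : Rl) :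
    ∃ V : Set W, IsOpen V ∧ ∀ᶠ y in residual W, ((u, y) ∈ B ↔ y ∈ V) := by
  have h1 : MeasurableSet {y : W | (u, y) ∈ B} := measurable_prodMk_left hB
  obtain ⟨V, hV, hBV⟩ := h1.residualEq_isOpen
  exact ⟨V, hV, (eventuallyEq_set.mp hBV)⟩

theorem Q_compl (b : Set (Set W)) (hb : IsTopologicalBasis b) (hne : ∅ ∉ b) {O : Set W}
    (hO : IsOpen O) {B : Set (Rl × W)} (hB : MeasurableSet B) :
    Q O Bᶜ = ⋂ O' ∈ {O' ∈ b | O' ⊆ O}, (Q O' B)ᶜ := by
  ext u
  simp only [mem_iInter, mem_ofPred_eq, mem_compl_iff]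
  constructor
  · rintro h O' ⟨hO'b, hO'⟩ h'
    have hne' : O'.Nonempty := by
      rw [nonempty_iff_ne_empty]
      rintro rfl
      exact hne hO'b
    refine not_residual_notMem (hb.isOpen hO'b) hne' ?_
    filter_upwards [h, h'] with y h1 h2 hy
    exact h1 (hO' hy) (h2 hy)
  · intro h
    obtain ⟨V, hV, hBV⟩ := section_open hB u
    have hVO : V ∩ O = ∅ := by
      by_contra hcon
      obtain ⟨y, hy⟩ := nonempty_iff_ne_empty.mpr hcon
      obtain ⟨O', hO'b, _, hO'⟩ := hb.exists_subset_of_mem_open hy (hV.inter hO)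
      refine h O' ⟨hO'b, hO'.trans inter_subset_right⟩ ?_
      filter_upwards [hBV] with y h1 hy
      exact h1.mpr (hO' hy).1
    filter_upwards [hBV] with y h1 hy h2
    have : y ∈ V ∩ O := ⟨h1.mp h2, hy⟩
    rw [hVO] at this
    exact this

theorem Q_prod {O : Set W} (hO : IsOpen O) (hne : O.Nonempty) {E : Set Rl} (hE : MeasurableSet E)
    (F : Set W) : MeasurableSet (Q O (E ×ˢ F)) := by
  by_cases h : ∀ᶠ y in residual W, y ∈ O → y ∈ F
  · have h1 : Q O (E ×ˢ F) = E := by
      ext u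
      constructor
      · intro hu
        by_contra hE'
        refine not_residual_notMem hO hne ?_
        filter_upwards [hu] with y hy hyO
        exact hE' (hy hyO).1
      · intro hu
        filter_upwards [h] with y hy hyO
        exact ⟨hu, hy hyO⟩
    rw [h1]
    exact hE
  · have h1 : Q O (E ×ˢ F) = ∅ := by
      refine eq_empty_of_forall_notMem fun u hu => h ?_
      filter_upwards [hu] with y hy hyO
      exact (hy hyO).2
    rw [h1]
    exact MeasurableSet.empty

theorem measurable_Q (b : Set (Set W)) (hb : IsTopologicalBasis b) (hbc : b.Countable)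
    (hne : ∅ ∉ b) (B : Set (Rl × W)) (hB : MeasurableSet B) :
    MeasurableSet B ∧ ∀ O ∈ b, MeasurableSet (Q O B) := by
  have hcompl : ∀ B : Set (Rl × W), (MeasurableSet B ∧ ∀ O ∈ b, MeasurableSet (Q O B)) →
      (MeasurableSet Bᶜ ∧ ∀ O ∈ b, MeasurableSet (Q O Bᶜ)) := by
    rintro B ⟨h1, h2⟩
    refine ⟨h1.compl, fun O hO => ?_⟩
    rw [Q_compl b hb hne (hb.isOpen hO) h1]
    refine MeasurableSet.biInter (hbc.mono fun O' h => h.1) fun O' h => (h2 O' h.1).compl
  have hint : ∀ B : ℕ → Set (Rl × W), (∀ i, MeasurableSet (B i) ∧ ∀ O ∈ b, MeasurableSet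
      (Q O (B i))) → (MeasurableSet (⋂ i, B i) ∧ ∀ O ∈ b, MeasurableSet (Q O (⋂ i, B i))) := by
    intro B h
    refine ⟨MeasurableSet.iInter fun i => (h i).1, fun O hO => ?_⟩
    rw [Q_iInter]
    exact MeasurableSet.iInter fun i => (h i).2 O hO
  rw [← generateFrom_prod] at hB
  refine MeasurableSpace.generateFrom_induction _
    (fun B _ => MeasurableSet B ∧ ∀ O ∈ b, MeasurableSet (Q O B)) ?_ ?_ ?_ ?_ B hB
  · rintro _ ⟨E, hE, F, hF, rfl⟩ _
    refine ⟨MeasurableSet.prod hE hF, fun O hO => Q_prod (hb.isOpen hO) ?_ hE F⟩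
    rw [nonempty_iff_ne_empty]
    rintro rfl
    exact hne hO
  · have h0 : (∅ : Set (Rl × W)) = ∅ ×ˢ ∅ := by simp
    refine ⟨MeasurableSet.empty, fun O hO => ?_⟩
    rw [h0]
    refine Q_prod (hb.isOpen hO) ?_ MeasurableSet.empty _
    rw [nonempty_iff_ne_empty]
    rintro rfl
    exact hne hO
  · exact fun B _ h => hcompl B h
  · intro B _ h
    have h1 := hcompl _ (hint (fun i => (B i)ᶜ) fun i => hcompl _ (h i))
    have h2 : (⋂ i, (B i)ᶜ)ᶜ = ⋃ i, B i := by simp [compl_iInter]
    rwa [h2] at h1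

theorem spl (pcm : G_PCM) (box : G_BOX) : G_SPL := by
  intro B hB
  have hb := TopologicalSpace.isBasis_countableBasis W
  have hbc := TopologicalSpace.countable_countableBasis W
  have hne := TopologicalSpace.empty_notMem_countableBasis W
  set b := TopologicalSpace.countableBasis W with hbdef
  have hQ := (measurable_Q b hb hbc hne B hB).2
  refine ⟨⋃ O ∈ b, Q O B, MeasurableSet.biUnion hbc hQ, ?_, ?_⟩
  · intro u hu
    simp only [mem_iUnion] at hu
    obtain ⟨O, hO, hu⟩ := hu
    have hne' : O.Nonempty := by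
      rw [nonempty_iff_ne_empty]
      rintro rfl
      exact hne hO
    obtain ⟨z, hz⟩ := hne'
    obtain ⟨F, k, hF⟩ := exists_box (hb.isOpen hO) hz
    have hrg : (SA.box F k z).rg ⊆ O := fun y hy => hF (((box ℕ F k).2.2.2.1 z y).mp hy)
    have h1 := tendsto_residual_of_isOpenMap (continuous_ac (SA.box F k z)) (isOpenMap_box F k z)
    have h2 : ∀ᶠ y in residual W, (SA.box F k z).ac y ∈ O → (u, (SA.box F k z).ac y) ∈ B :=
      h1.eventually hu
    have h3 : {y : W | (u, (SA.box F k z).ac y) ∈ B} ∈ residual W := by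
      filter_upwards [h2] with y hy
      exact hy (hrg ⟨y, rfl⟩)
    obtain ⟨g, hg⟩ := pcm _ h3
    refine ⟨SA.box F k z * g, ?_⟩
    rintro _ ⟨y, rfl⟩
    exact hg ⟨y, rfl⟩
  · intro u hu
    simp only [mem_iUnion, not_exists] at hu
    obtain ⟨V, hV, hBV⟩ := section_open hB u
    have hV0 : V = ∅ := by
      by_contra hcon
      obtain ⟨y, hy⟩ := nonempty_iff_ne_empty.mpr hcon
      obtain ⟨O, hOb, _, hO⟩ := hb.exists_subset_of_mem_open hy hV
      refine hu O hOb ?_
      filter_upwards [hBV] with y h1 hy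
      exact h1.mpr (hO hy)
    have h3 : {y : W | (u, y) ∉ B} ∈ residual W := by
      filter_upwards [hBV] with y h1 h2
      have := h1.mp h2
      rw [hV0] at this
      exact this
    obtain ⟨g, hg⟩ := pcm _ h3
    exact ⟨g, fun y hy => hg hy⟩

end SA.PkSPL
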